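import Pool.Agent.Lib.MP_a8a7e3_hf.Gen

set_option linter.unusedSectionVars false
set_option linter.unusedVariables false

/-!
# Capturing meager sets

The pair `(c, d)` codes the meager set of all `x : ℕ → Bool` such that for almost all `n` there is a
`j` with `n ≤ j ≤ n + d n` and `x j ≠ c j`.
-/

namespace Pool.Agent.HF

open Cardinal Pool.Agent.KM

/-- The set coded by `(y, e)` is captured by `(c, d)`: for almost all `n` there is `k ≥ n` with
`k + e k ≤ d n` such that `c` and `y` agree on `[k, k + e k]`. -/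
def Tri (y : ℕ → Bool) (e : ℕ → ℕ) (c : ℕ → Bool) (d : ℕ → ℕ) : Prop :=
  ∃ N, ∀ n, N ≤ n → ∃ k, n ≤ k ∧ k + e k ≤ d n ∧ ∀ j, k ≤ j → j ≤ k + e k → c j = y j

/-- For infinitely many `n` the real `x` is opposite to `c` on `[n, n + d n]`. -/
def Opp (x : ℕ → Bool) (c : ℕ → Bool) (d : ℕ → ℕ) : Prop :=
  ∀ N, ∃ n, N ≤ n ∧ ∀ j, n ≤ j → j ≤ n + d n → x j = !(c j)

section

variable {P : Type} [Preorder P]

/-- `p ⊩ Tri y e c d` -/
def fTri (y : FunName P ℕ Bool) (e : FunName P ℕ ℕ) (c : FunName P ℕ Bool)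
    (d : FunName P ℕ ℕ) : P → Prop :=
  fEx fun N : ℕ => fAll fun n : ℕ => fImp (fFact (N ≤ n)) (fEx fun x : ℕ × ℕ × ℕ =>
    fAnd (fFact (n ≤ x.1 ∧ x.1 + x.2.1 ≤ x.2.2)) (fAnd (e.app x.1 x.2.1) (fAnd (d.app n x.2.2)
      (fAll fun j : ℕ => fImp (fFact (x.1 ≤ j ∧ j ≤ x.1 + x.2.1))
        (fEx fun β : Bool => fAnd (c.app j β) (y.app j β))))))

/-- `p ⊩ Opp x c d` -/
def fOpp (x : FunName P ℕ Bool) (c : FunName P ℕ Bool) (d : FunName P ℕ ℕ) : P → Prop :=
  fAll fun N : ℕ => fEx fun z : ℕ × ℕ => fAnd (fFact (N ≤ z.1)) (fAnd (d.app z.1 z.2)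
    (fAll fun j : ℕ => fImp (fFact (z.1 ≤ j ∧ j ≤ z.1 + z.2))
      (fEx fun β : Bool => fAnd (x.app j (!β)) (c.app j β))))

end

variable {B I K : Type} [Preorder B] [PartialOrder I] [WellFoundedLT I]

/-- `q ⊩ there is k ≥ n with k + e k ≤ m such that c and y agree on [k, k + e k]` -/
def Phi (y : FunName (Raw B I K) ℕ Bool) (e : FunName (Raw B I K) ℕ ℕ)
    (c : FunName (Raw B I K) ℕ Bool) (n m : ℕ) : Raw B I K → Prop :=
  fEx fun x : ℕ × ℕ => fAnd (fFact (n ≤ x.1 ∧ x.1 + x.2 ≤ m)) (fAnd (e.app x.1 x.2)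
    (fAll fun j : ℕ => fImp (fFact (x.1 ≤ j ∧ j ≤ x.1 + x.2))
      (fEx fun β : Bool => fAnd (c.app j β) (y.app j β))))

/-- decide finitely many values of a name -/
theorem decide_fin {X : Type} (x : FunName (Raw B I K) ℕ X) (n : ℕ) (p : Raw B I K) :
    ∃ q ≤ p, ∃ f : ℕ → X, ∀ j < n, x.app j (f j) q := by
  classical
  induction n with
  | zero =>
    obtain ⟨q, hq, b, hb⟩ := x.tot 0 p
    exact ⟨q, hq, fun _ => b, fun j hj => absurd hj (Nat.not_lt_zero _)⟩
  | succ n ih =>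
    obtain ⟨q, hq, f, hf⟩ := ih
    obtain ⟨q', hq', b, hb⟩ := x.tot n q
    refine ⟨q', hq'.trans hq, Function.update f n b, fun j hj => ?_⟩
    rcases Nat.lt_succ_iff_lt_or_eq.1 hj with h | h
    · rw [Function.update_of_ne (ne_of_lt h)]
      exact (x.reg _ _).mono hq' (hf j h)
    · subst h
      rw [Function.update_self]
      exact hb

/-- By `cohen_generic` for `A = Set.Iio i` and
`D s = fEx fun x : ℕ × ℕ => fAnd (fFact (n ≤ x.1 ∧ x.1 + x.2 < s.length)) (fAnd (e.app x.1 x.2)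
  (fAll fun j => fImp (fFact (x.1 ≤ j ∧ j ≤ x.1 + x.2)) (fEx fun β => fAnd (fFact (s[j]? = some β))
    (y.app j β))))`;
for the density decide `e k` for `k = max n s.length`, and the values `y j`, `j ≤ k + e k`. -/
theorem phi_dense {i : I} {y : FunName (Raw B I K) ℕ Bool} {e : FunName (Raw B I K) ℕ ℕ}
    (hy : ∀ n β, SP (Set.Iio i) (y.app n β)) (he' : ∀ n a, SP (Set.Iio i) (e.app n a)) (n : ℕ)
    (p : Raw B I K) : ∃ q ≤ p, ∃ m, Phi y e (co i) n m q := by
  have key := cohen_generic (down_Iio i) (fun h => lt_irrefl i h)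
    (fun s : List Bool => fEx fun x : ℕ × ℕ => fAnd (fFact (n ≤ x.1 ∧ x.1 + x.2 < s.length))
      (fAnd (e.app x.1 x.2) (fAll fun j : ℕ => fImp (fFact (x.1 ≤ j ∧ j ≤ x.1 + x.2))
        (fEx fun β : Bool => fAnd (fFact (s[j]? = some β)) (y.app j β)))))
    (fun s => sp_fEx (down_Iio i) fun x => sp_fAnd (sp_fFact _ _) (sp_fAnd (he' _ _)
      (sp_fAll fun j => sp_fImp (down_Iio i) (sp_fFact _ _)
        (sp_fEx (down_Iio i) fun β => sp_fAnd (sp_fFact _ _) (hy _ _))))) ?_ p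
  · obtain ⟨r, hr, s, hbits, hD⟩ := fEx_get key
    obtain ⟨r', hr', x, hx1, hx2, hx3⟩ := fEx_get hD
    have hx1' : n ≤ x.1 ∧ x.1 + x.2 < s.length := hx1
    refine ⟨r', hr'.trans hr, x.1 + x.2, fun q' hq' => ⟨q', le_rfl, x, ⟨hx1'.1, le_rfl⟩,
      (e.reg _ _).mono hq' hx2, fun j q'' hq'' hj q₃ hq₃ => ?_⟩⟩
    obtain ⟨r₃, hr₃, β, h1, h2⟩ := hx3 j q'' (hq''.trans hq') hj q₃ hq₃
    have h1' : s[j]? = some β := h1
    exact ⟨r₃, hr₃, β, hbits j β r₃ (hr₃.trans (hq₃.trans (hq''.trans (hq'.trans hr')))) h1', h2⟩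
  · intro s p
    obtain ⟨k, hk⟩ : ∃ k, k = max n s.length := ⟨_, rfl⟩
    obtain ⟨q₁, hq₁, a, ha⟩ := e.tot k p
    obtain ⟨q₂, hq₂, f, hf⟩ := decide_fin y (k + a + 1) q₁
    obtain ⟨t, ht⟩ : ∃ t, t = s ++ (List.range (k + a + 1 - s.length)).map
      (fun j => f (s.length + j)) := ⟨_, rfl⟩
    have hlen : t.length = k + a + 1 := by
      rw [ht, List.length_append, List.length_map, List.length_range]
      have := le_max_right n s.length
      omega
    have htj : ∀ j, s.length ≤ j → j < k + a + 1 → t[j]? = some (f j) := by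
      intro j h1 h2
      rw [ht, List.getElem?_append_right h1, List.getElem?_map,
        List.getElem?_range (by omega)]
      simp only [Option.map_some]
      congr 2
      omega
    refine ⟨q₂, hq₂.trans hq₁, t, by rw [ht]; exact List.prefix_append _ _, ?_⟩
    intro q' hq'
    refine ⟨q', le_rfl, (k, a), ⟨?_, ?_⟩, (e.reg _ _).mono (hq'.trans hq₂) ha,
      fun j q'' hq'' hj q₃ hq₃ => ?_⟩
    · show n ≤ k
      rw [hk]; exact le_max_left _ _
    · show k + a < t.length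
      omega
    · have hj' : k ≤ j ∧ j ≤ k + a := hj
      refine ⟨q₃, le_rfl, f j, ?_, (y.reg _ _).mono (hq₃.trans (hq''.trans hq')) (hf j (by omega))⟩
      exact htj j ((le_max_right n s.length).trans (hk ▸ hj'.1)) (by omega)

/-- Every meager set of the extension by the coordinates below `i` is captured by the Cohen real at
`i` and the Hechler real at `j > i`.  (`dominate` for `Phi y e (co i)`.) -/
theorem capture (hB : #B ≤ ℵ₁) (hK : #K = ℵ₁) {i j : I} (hij : i < j)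
    {y : FunName (Raw B I K) ℕ Bool} {e : FunName (Raw B I K) ℕ ℕ}
    (hy : ∀ n β, SP (Set.Iio i) (y.app n β)) (he' : ∀ n a, SP (Set.Iio i) (e.app n a))
    (p : Raw B I K) : fTri y e (co i) (he j) p := by
  have hii : Set.Iio i ⊆ Set.Iio j := fun t (ht : t < i) => lt_trans ht hij
  have hSP : ∀ n m, SP (Set.Iio j) (Phi y e (co i) n m) := fun n m =>
    sp_fEx (down_Iio j) fun x => sp_fAnd (sp_fFact _ _) (sp_fAnd ((he' _ _).mono_set hii)
      (sp_fAll fun l => sp_fImp (down_Iio j) (sp_fFact _ _) (sp_fEx (down_Iio j) fun β =>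
        sp_fAnd (sp_co (show i ∈ Set.Iio j from hij) _ _) ((hy _ _).mono_set hii))))
  have hdom := dominate hB hK j (fun n m => Phi y e (co i) n m) hSP
    (fun n p => phi_dense hy he' n p) p
  intro q hq
  obtain ⟨r, hr, N, h⟩ := hdom q hq
  refine ⟨r, hr, N, fun n r₁ hr₁ hN r₂ hr₂ => ?_⟩
  obtain ⟨s, hs, x, hx, hhe, hΦ⟩ := h n r₁ hr₁ hN r₂ hr₂
  obtain ⟨t, ht, z, hz, hez, hrest⟩ := hΦ s le_rfl
  exact ⟨t, ht.trans hs, (z.1, z.2, x.2), ⟨hz.1, hz.2.trans hx⟩, hez,
    ((he j).reg n x.2).1 _ _ ht hhe, hrest⟩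

/-- The Cohen real at `i` is opposite infinitely often to the reals coding a meager set of the
extension by the coordinates in `A`, `i ∉ A`.  (`cohen_generic` for
`D s = fEx fun z : ℕ × ℕ => fAnd (fFact (N ≤ z.1 ∧ z.1 + z.2 < s.length)) (fAnd (d.app z.1 z.2)
  (fAll fun j => fImp (fFact (z.1 ≤ j ∧ j ≤ z.1 + z.2)) (fEx fun β =>
    fAnd (fFact (s[j]? = some (!β))) (c.app j β))))`.) -/
theorem opposite {i : I} {A : Set I} (hA : Down A) (hi : i ∉ A)
    {c : FunName (Raw B I K) ℕ Bool} {d : FunName (Raw B I K) ℕ ℕ}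
    (hc : ∀ n β, SP A (c.app n β)) (hd : ∀ n a, SP A (d.app n a))
    (p : Raw B I K) : fOpp (co i) c d p := by
  intro N
  have hcg := cohen_generic hA hi (fun s => fEx fun z : ℕ × ℕ =>
      fAnd (fFact (N ≤ z.1 ∧ z.1 + z.2 < s.length)) (fAnd (d.app z.1 z.2)
        (fAll fun j : ℕ => fImp (fFact (z.1 ≤ j ∧ j ≤ z.1 + z.2)) (fEx fun β : Bool =>
          fAnd (fFact (s[j]? = some (!β))) (c.app j β)))))
    (fun s => sp_fEx hA fun z => sp_fAnd (sp_fFact _ _) (sp_fAnd (hd _ _)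
      (sp_fAll fun l => sp_fImp hA (sp_fFact _ _) (sp_fEx hA fun β =>
        sp_fAnd (sp_fFact _ _) (hc _ _)))))
    (by
      intro s p
      obtain ⟨q₁, hq₁, m, hm⟩ := d.tot (max N s.length) p
      obtain ⟨q₂, hq₂, f, hf⟩ := decide_fin c (max N s.length + m + 1) q₁
      have hlen : (s ++ List.ofFn (fun l : Fin (max N s.length + m + 1 - s.length) =>
          !(f (s.length + l.1)))).length = max N s.length + m + 1 := by
        rw [List.length_append, List.length_ofFn]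
        omega
      refine ⟨q₂, hq₂.trans hq₁, s ++ List.ofFn (fun l : Fin (max N s.length + m + 1 - s.length) =>
        !(f (s.length + l.1))), List.prefix_append _ _, ?_⟩
      intro r hr
      refine ⟨r, le_rfl, (max N s.length, m), ⟨le_max_left _ _, ?_⟩,
        (d.reg _ _).1 _ _ (hr.trans hq₂) hm, ?_⟩
      · rw [hlen]
        exact Nat.lt_succ_self _
      · intro j r₁ hr₁ hj r₂ hr₂
        have hj1 : max N s.length ≤ j := hj.1
        have hj2 : j ≤ max N s.length + m := hj.2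
        have hsl : s.length ≤ j := (le_max_right _ _).trans hj1
        refine ⟨r₂, le_rfl, f j, ?_, (c.reg _ _).1 _ _ (hr₂.trans (hr₁.trans hr))
          (hf j (by omega))⟩
        show (s ++ List.ofFn (fun l : Fin (max N s.length + m + 1 - s.length) =>
          !(f (s.length + l.1))))[j]? = some (!(f j))
        rw [List.getElem?_append_right hsl, List.getElem?_eq_getElem (by
          rw [List.length_ofFn]
          omega), List.getElem_ofFn]
        simp only [Nat.add_sub_cancel' hsl]) p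
  intro q hq
  obtain ⟨r, hr, s, hbits, hD⟩ := hcg q hq
  obtain ⟨r', hr', z, hz, hdz, hrest⟩ := hD r le_rfl
  refine ⟨r', hr'.trans hr, z, hz.1, hdz, ?_⟩
  intro j r₁ hr₁ hj r₂ hr₂
  obtain ⟨w, hw, β, hs, hcw⟩ := hrest j r₁ hr₁ hj r₂ hr₂
  exact ⟨w, hw, β, hbits j (!β) w (hw.trans (hr₂.trans (hr₁.trans hr'))) hs, hcw⟩

end Pool.Agent.HF
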