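import Pool.Agent.Lib.MP_a8a7e3_hf.Mg.G001

set_option linter.unusedSectionVars false
set_option linter.unusedVariables false

/-!
# The chain condition
-/

namespace Pool.Agent.HF

open Cardinal

variable {B I K : Type} [Preorder B] [PartialOrder I] [WellFoundedLT I]

/-- Conditions with the same bottom and the same stems on the common part of the domains are
compatible: take the union of the domains, and all names of both conditions. -/
theorem exists_common {p q : Raw B I K} (hb : p.b = q.b)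
    (h : ∀ s ∈ p.dom, s ∈ q.dom → p.σ s = q.σ s) : ∃ r, r ≤ p ∧ r ≤ q := by
  classical
  refine ⟨Raw.mk p.b (p.dom ∪ q.dom) (fun s => if s ∈ p.dom then p.σ s else q.σ s)
    (fun s => p.m s + q.m s) (fun s j => if j < p.m s then p.r s j else q.r s (j - p.m s))
    (fun s j => if j < p.m s then p.v s j else q.v s (j - p.m s)), ?_, ?_⟩
  · refine le_iff.2 ⟨le_rfl, fun s hs => Step.of_eq (fun _ => ?_) ?_ ?_ hs⟩
    · exact Finset.mem_union_left _ hs
    · exact if_pos hs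
    · intro j hj
      exact ⟨j, Nat.lt_of_lt_of_le hj (Nat.le_add_right _ _), if_pos hj, if_pos hj⟩
  · refine le_iff.2 ⟨hb.le, fun s hs => Step.of_eq (fun _ => ?_) ?_ ?_ hs⟩
    · exact Finset.mem_union_right _ hs
    · by_cases hp : s ∈ p.dom
      · exact (if_pos hp).trans (h s hp hs)
      · exact if_neg hp
    · intro j hj
      refine ⟨p.m s + j, Nat.add_lt_add_left hj _, ?_, ?_⟩
      · refine (if_neg (by omega)).trans ?_
        rw [Nat.add_sub_cancel_left]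
      · refine (if_neg (by omega)).trans ?_
        rw [Nat.add_sub_cancel_left]

/-- a subset of a type of size `θ`, of size at least `θ` -/
theorem delta_system_lift {θ : Cardinal.{0}} {X : Type} {A : Set X} {Y : Set A} (hY : #Y = θ) :
    #(Subtype.val '' Y : Set X) = θ := by
  rw [Cardinal.mk_image_eq Subtype.val_injective, hY]

open Classical in
/-- the disjoint case -/
theorem delta_system_disj {θ : Cardinal.{0}} (hθ : θ.IsRegular) (hunc : ℵ₀ < θ) {X E : Type}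
    (hX : #X = θ) (D : X → Finset E) (hne : ∀ x, (D x).Nonempty)
    (hsmall : ∀ e, #{x | e ∈ D x} < θ) :
    ∃ Y : Set X, #Y = θ ∧ ∀ x ∈ Y, ∀ y ∈ Y, x ≠ y → D x ∩ D y = ∅ := by
  obtain ⟨Y, hY⟩ := zorn_subset {Y : Set X | ∀ x ∈ Y, ∀ y ∈ Y, x ≠ y → D x ∩ D y = ∅} (by
    intro c hc hch
    refine ⟨⋃₀ c, ?_, fun s hs => Set.subset_sUnion_of_mem hs⟩
    rintro x ⟨s, hs, hx⟩ y ⟨t, ht, hy⟩ hxy
    rcases hch.total hs ht with h | h
    · exact hc ht x (h hx) y hy hxy
    · exact hc hs x hx y (h hy) hxy)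
  refine ⟨Y, ?_, hY.prop⟩
  by_contra hcard
  have hlt : #Y < θ := lt_of_le_of_ne ((Cardinal.mk_set_le Y).trans hX.le) hcard
  have h1 : #(⋃ y ∈ Y, (↑(D y) : Set E)) < θ := by
    rw [Cardinal.card_biUnion_lt_iff_forall_of_isRegular hθ hlt]
    intro y _
    exact (Cardinal.lt_aleph0_of_finite _).trans hunc
  have h2 : #(⋃ e ∈ (⋃ y ∈ Y, (↑(D y) : Set E)), {x | e ∈ D x}) < θ := by
    rw [Cardinal.card_biUnion_lt_iff_forall_of_isRegular hθ h1]
    intro e _
    exact hsmall e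
  have h3 : ∃ x, x ∉ ⋃ e ∈ (⋃ y ∈ Y, (↑(D y) : Set E)), {x | e ∈ D x} := by
    by_contra! hall
    have : (⋃ e ∈ (⋃ y ∈ Y, (↑(D y) : Set E)), {x | e ∈ D x}) = Set.univ :=
      Set.eq_univ_of_forall hall
    rw [this, Cardinal.mk_univ, hX] at h2
    exact lt_irrefl _ h2
  obtain ⟨x, hx⟩ := h3
  have hx' : ∀ y ∈ Y, D x ∩ D y = ∅ := by
    intro y hy
    refine Finset.eq_empty_of_forall_notMem fun e he => hx ?_
    rw [Finset.mem_inter] at he
    exact Set.mem_biUnion (Set.mem_biUnion hy (Finset.mem_coe.2 he.2)) he.1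
  have hxY : x ∉ Y := by
    intro h
    have h4 := hx' x h
    rw [Finset.inter_self] at h4
    exact (hne x).ne_empty h4
  have hins : insert x Y ∈ {Y : Set X | ∀ x ∈ Y, ∀ y ∈ Y, x ≠ y → D x ∩ D y = ∅} := by
    rintro a (rfl | ha) b (rfl | hb) hab
    · exact absurd rfl hab
    · exact hx' b hb
    · rw [Finset.inter_comm]
      exact hx' a ha
    · exact hY.prop a ha b hb hab
  exact hxY (hY.le_of_ge hins (Set.subset_insert x Y) (Set.mem_insert x Y))

open Classical in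
/-- the case of finite sets of the same size -/
theorem delta_system_card {θ : Cardinal.{0}} (hθ : θ.IsRegular) (hunc : ℵ₀ < θ) {E : Type}
    (n : ℕ) : ∀ {X : Type}, #X = θ → ∀ D : X → Finset E, (∀ x, (D x).card = n) →
    ∃ Y : Set X, #Y = θ ∧ ∃ Δ : Finset E, ∀ x ∈ Y, ∀ y ∈ Y, x ≠ y → D x ∩ D y = Δ := by
  induction n with
  | zero =>
    intro X hX D hD
    refine ⟨Set.univ, by rw [Cardinal.mk_univ, hX], ∅, fun x _ y _ _ => ?_⟩
    rw [Finset.card_eq_zero.1 (hD x), Finset.empty_inter]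
  | succ n ih =>
    intro X hX D hD
    by_cases hsmall : ∀ e, #{x | e ∈ D x} < θ
    · obtain ⟨Y, hY, h⟩ := delta_system_disj hθ hunc hX D
        (fun x => Finset.card_pos.1 (by rw [hD x]; exact Nat.succ_pos n)) hsmall
      exact ⟨Y, hY, ∅, h⟩
    · push Not at hsmall
      obtain ⟨e, he⟩ := hsmall
      have hA : #{x | e ∈ D x} = θ := le_antisymm ((Cardinal.mk_set_le _).trans hX.le) he
      obtain ⟨Y, hY, Δ, h⟩ := ih hA (fun x => (D x.1).erase e) (fun x => by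
        rw [Finset.card_erase_of_mem x.2, hD x.1]
        rfl)
      refine ⟨Subtype.val '' Y, delta_system_lift hY, insert e Δ, ?_⟩
      rintro _ ⟨x, hx, rfl⟩ _ ⟨y, hy, rfl⟩ hxy
      have h5 := h x hx y hy (fun h6 => hxy (congrArg Subtype.val h6))
      ext a
      by_cases hae : a = e
      · subst hae
        simp only [Finset.mem_inter, Finset.mem_insert, true_or, iff_true]
        exact ⟨x.2, y.2⟩
      · rw [← h5]
        simp only [Finset.mem_inter, Finset.mem_insert, Finset.mem_erase, hae, false_or, ne_eq,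
          not_false_eq_true, true_and]

open Classical in
/-- The Δ-system lemma for finite sets. -/
theorem delta_system {θ : Cardinal.{0}} (hθ : θ.IsRegular) (hunc : ℵ₀ < θ) {X E : Type}
    (hX : #X = θ) (D : X → Finset E) :
    ∃ Y : Set X, #Y = θ ∧ ∃ Δ : Finset E, ∀ x ∈ Y, ∀ y ∈ Y, x ≠ y → D x ∩ D y = Δ := by
  obtain ⟨n, hn⟩ := Cardinal.infinite_pigeonhole_card (fun x => (D x).card) θ hX.ge hθ.aleph0_le
    (by rw [hθ.cof_ord, Cardinal.mk_nat]; exact hunc)
  have hA : #((fun x => (D x).card) ⁻¹' {n}) = θ :=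
    le_antisymm ((Cardinal.mk_set_le _).trans hX.le) hn
  obtain ⟨Y, hY, Δ, h⟩ := delta_system_card hθ hunc n hA (fun x => D x.1) (fun x => x.2)
  refine ⟨Subtype.val '' Y, delta_system_lift hY, Δ, ?_⟩
  rintro _ ⟨x, hx, rfl⟩ _ ⟨y, hy, rfl⟩ hxy
  exact h x hx y hy (fun h6 => hxy (congrArg Subtype.val h6))

theorem exists_compat_reg : (ℵ_ 2 : Cardinal.{0}).IsRegular := by
  have h := Cardinal.isRegular_aleph_add_one (1 : Ordinal.{0})
  rwa [one_add_one_eq_two] at h

theorem exists_compat_lt : (ℵ₁ : Cardinal.{0}) < ℵ_ 2 := by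
  rw [Cardinal.aleph_lt_aleph]
  exact one_lt_two

/-- Among `ℵ₂` conditions there are `ℵ₂` pairwise compatible ones.
(First a Δ-system, then the same bottom and the same stems on the root.) -/
theorem exists_compat (hB : #B ≤ ℵ₁) {X : Type} (hX : #X = ℵ_ 2) (p : X → Raw B I K) :
    ∃ Y : Set X, #Y = ℵ_ 2 ∧ ∀ x ∈ Y, ∀ y ∈ Y, ∃ r, r ≤ p x ∧ r ≤ p y := by
  classical
  have hreg := exists_compat_reg
  obtain ⟨Y, hY, Δ, hΔ⟩ := delta_system hreg (Cardinal.aleph0_lt_aleph_one.trans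
    exists_compat_lt) hX (fun x => (p x).dom)
  have hcard : #(B × (Δ → List ℕ)) ≤ ℵ₁ := by
    have h1 : #(Δ → List ℕ) ≤ ℵ₁ := (Cardinal.mk_le_aleph0 (α := Δ → List ℕ)).trans
      Cardinal.aleph0_lt_aleph_one.le
    rw [Cardinal.mk_prod, Cardinal.lift_id, Cardinal.lift_id]
    exact (mul_le_mul' hB h1).trans (Cardinal.mul_eq_self Cardinal.aleph0_lt_aleph_one.le).le
  obtain ⟨c, hc⟩ := Cardinal.infinite_pigeonhole_card
    (fun y : Y => (((p y.1).b, fun s => (p y.1).σ s.1) : B × (Δ → List ℕ))) (ℵ_ 2) hY.ge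
    hreg.aleph0_le (by rw [hreg.cof_ord]; exact hcard.trans_lt exists_compat_lt)
  have hc' := le_antisymm ((Cardinal.mk_set_le _).trans hY.le) hc
  refine ⟨Subtype.val '' _, delta_system_lift hc', ?_⟩
  rintro _ ⟨x, hx, rfl⟩ _ ⟨y, hy, rfl⟩
  by_cases hxy : x = y
  · subst hxy
    exact ⟨p x.1, le_rfl, le_rfl⟩
  · have h1 : (((p x.1).b, fun s => (p x.1).σ s.1) : B × (Δ → List ℕ)) =
        ((p y.1).b, fun s => (p y.1).σ s.1) := Eq.trans hx (Eq.symm hy)
    rw [Prod.mk.injEq] at h1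
    refine exists_common h1.1 fun s hs hs' => ?_
    have hsΔ : s ∈ Δ := by
      rw [← hΔ x.1 x.2 y.1 y.2 (fun h2 => hxy (Subtype.ext h2))]
      exact Finset.mem_inter.2 ⟨hs, hs'⟩
    exact congrFun h1.2 ⟨s, hsΔ⟩

/-- Antichains have size at most `ℵ₁`. -/
theorem card_antichain (hB : #B ≤ ℵ₁) (A : Set (Raw B I K))
    (hA : ∀ a ∈ A, ∀ b ∈ A, a ≠ b → ¬ ∃ r, r ≤ a ∧ r ≤ b) : #A ≤ ℵ₁ := by
  by_contra hcon
  have h2 : ℵ_ 2 ≤ #A := by
    have h3 := Order.succ_le_of_lt (not_le.1 hcon)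
    rwa [Cardinal.succ_aleph, one_add_one_eq_two] at h3
  obtain ⟨X, hX⟩ := Cardinal.le_mk_iff_exists_set.1 h2
  obtain ⟨Y, hY, h⟩ := exists_compat hB hX (fun x => x.1.1)
  have h1 : 1 < #Y := by
    rw [hY]
    exact (Cardinal.one_lt_aleph0.trans Cardinal.aleph0_lt_aleph_one).trans exists_compat_lt
  obtain ⟨x, y, hxy⟩ := (Cardinal.one_lt_iff_nontrivial.1 h1).exists_pair_ne
  exact hA x.1.1.1 x.1.1.2 y.1.1.1 y.1.1.2 (fun he => hxy (Subtype.ext (Subtype.ext
    (Subtype.ext he)))) (h x.1 x.2 y.1 y.2)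

/-- Every dense property is witnessed by a predense family indexed by `K`.
(Zorn: a maximal antichain among the conditions with the property.) -/
theorem exists_predense [Nonempty B] (hB : #B ≤ ℵ₁) (hK : #K = ℵ₁) (D : Raw B I K → Prop)
    (hd : ∀ p, ∃ q ≤ p, D q) :
    ∃ r : K → Raw B I K, (∀ k, D (r k)) ∧ ∀ p, ∃ q ≤ p, ∃ k, q ≤ r k := by
  obtain ⟨A, hA⟩ := zorn_subset {A : Set (Raw B I K) | (∀ a ∈ A, D a) ∧
      ∀ a ∈ A, ∀ b ∈ A, a ≠ b → ¬ ∃ r, r ≤ a ∧ r ≤ b} (by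
    intro c hc hch
    refine ⟨⋃₀ c, ⟨?_, ?_⟩, fun s hs => Set.subset_sUnion_of_mem hs⟩
    · rintro x ⟨s, hs, hx⟩
      exact (hc hs).1 x hx
    · rintro x ⟨s, hs, hx⟩ y ⟨t, ht, hy⟩ hxy
      rcases hch.total hs ht with h | h
      · exact (hc ht).2 x (h hx) y hy hxy
      · exact (hc hs).2 x hx y (h hy) hxy)
  have hpre : ∀ p, ∃ q ≤ p, ∃ a ∈ A, q ≤ a := by
    intro p
    obtain ⟨q, hqp, hq⟩ := hd p
    by_contra! hno
    have hinc : ∀ a ∈ A, ¬ ∃ r, r ≤ a ∧ r ≤ q := by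
      rintro a ha ⟨r, hra, hrq⟩
      exact hno r (hrq.trans hqp) a ha hra
    have hins : insert q A ∈ {A : Set (Raw B I K) | (∀ a ∈ A, D a) ∧
        ∀ a ∈ A, ∀ b ∈ A, a ≠ b → ¬ ∃ r, r ≤ a ∧ r ≤ b} := by
      refine ⟨?_, ?_⟩
      · rintro a (rfl | ha)
        · exact hq
        · exact hA.prop.1 a ha
      · rintro a (rfl | ha) b (rfl | hb) hab
        · exact absurd rfl hab
        · rintro ⟨r, h1, h2⟩
          exact hinc b hb ⟨r, h2, h1⟩
        · exact hinc a ha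
        · exact hA.prop.2 a ha b hb hab
    have hqA : q ∈ A := hA.le_of_ge hins (Set.subset_insert q A) (Set.mem_insert q A)
    exact hno q hqp q hqA le_rfl
  have hcard : #A ≤ #K := by
    rw [hK]
    exact card_antichain hB A hA.prop.2
  obtain ⟨e⟩ : Nonempty (A ↪ K) := (Cardinal.le_def _ _).1 hcard
  obtain ⟨b⟩ := (inferInstance : Nonempty B)
  obtain ⟨_, _, a₀, ha₀, _⟩ := hpre (Raw.triv b)
  have : Nonempty A := ⟨⟨a₀, ha₀⟩⟩
  refine ⟨fun k => (Function.invFun e k).1, fun k => hA.prop.1 _ (Function.invFun e k).2,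
    fun p => ?_⟩
  obtain ⟨q, hq, a, ha, hqa⟩ := hpre p
  refine ⟨q, hq, e ⟨a, ha⟩, ?_⟩
  show q ≤ (Function.invFun e (e ⟨a, ha⟩)).1
  rw [Function.leftInverse_invFun e.injective ⟨a, ha⟩]
  exact hqa

/-- Every value of a name of a function has at most `ℵ₁` many possible values. -/
theorem possible (hB : #B ≤ ℵ₁) {A C : Type} (g : KM.FunName (Raw B I K) A C) (a : A) :
    #{c | ∃ r, g.app a c r} ≤ ℵ₁ := by
  have hch : ∀ c : {c | ∃ r, g.app a c r}, ∃ r, g.app a c.1 r := fun c => c.2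
  choose f hf using hch
  have hcomp : ∀ c c' r, r ≤ f c → r ≤ f c' → c = c' := fun c c' r h h' =>
    Subtype.ext (g.sv a c.1 c'.1 r ((g.reg a c.1).1 _ _ h (hf c))
      ((g.reg a c'.1).1 _ _ h' (hf c')))
  have hinj : Function.Injective f := fun c c' h => hcomp c c' (f c) le_rfl h.le
  rw [← Cardinal.mk_range_eq f hinj]
  refine card_antichain hB _ ?_
  rintro _ ⟨c, rfl⟩ _ ⟨c', rfl⟩ hne ⟨r, h, h'⟩
  exact hne (congrArg f (hcomp c c' r h h'))

/-- The support of a name of a function on `ℕ`.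
For each `n` take a predense family `r n k`, `k ∈ K`, of conditions which decide the value at `n`;
`Y` is the union of the domains.  Given `x.app n a p`, `LeOn A q p` and `q' ≤ q`, take `s ≤ q'` with
`s ≤ r n k`, and let `g = glue A s p`; then `g ≤ p` (`glue_le`) and `g ≤ r n k` (`le_of_leOn`), so
the value decided by `r n k`, and so by `s`, is `a`. -/
theorem exists_support [Nonempty B] (hB : #B ≤ ℵ₁) (hK : #K = ℵ₁) {X : Type}
    (x : KM.FunName (Raw B I K) ℕ X) :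
    ∃ Y : Set I, #Y ≤ ℵ₁ ∧ ∀ A : Set I, Down A → Y ⊆ A → ∀ n a, SP A (x.app n a) := by
  have hpd : ∀ n, ∃ r : K → Raw B I K, (∀ k, ∃ a, x.app n a (r k)) ∧
      ∀ p, ∃ q ≤ p, ∃ k, q ≤ r k := fun n =>
    exists_predense hB hK (fun q => ∃ a, x.app n a q) (x.tot n)
  choose r hr hpre using hpd
  refine ⟨⋃ nk : ℕ × K, (↑(r nk.1 nk.2).dom : Set I), ?_, ?_⟩
  · have hle : #(⋃ nk : ℕ × K, (↑(r nk.1 nk.2).dom : Set I)) < ℵ_ 2 := by
      rw [Cardinal.card_iUnion_lt_iff_forall_of_isRegular exists_compat_reg]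
      · intro nk
        exact (Cardinal.lt_aleph0_of_finite _).trans
          (Cardinal.aleph0_lt_aleph_one.trans exists_compat_lt)
      · rw [Cardinal.mk_prod, Cardinal.lift_id, Cardinal.lift_id, Cardinal.mk_nat, hK,
          Cardinal.mul_eq_right Cardinal.aleph0_lt_aleph_one.le Cardinal.aleph0_lt_aleph_one.le
            Cardinal.aleph0_ne_zero]
        exact exists_compat_lt
    have h3 : (ℵ_ 2 : Cardinal.{0}) = Order.succ ℵ₁ := by
      rw [Cardinal.succ_aleph, one_add_one_eq_two]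
    rw [h3] at hle
    exact Order.lt_succ_iff.1 hle
  · intro A hA hYA n a p q hqp hp
    refine (x.reg n a).2 q fun q' hq' => ?_
    obtain ⟨s, hsq', k, hsk⟩ := hpre n q'
    refine ⟨s, hsq', ?_⟩
    obtain ⟨a', ha'⟩ := hr n k
    have h1 : LeOn A s p := (LeOn.of_le (hsq'.trans hq')).trans hA hqp
    have h2 : glue A s p ≤ p := glue_le hA h1
    have h3 : glue A s p ≤ r n k := by
      refine le_of_leOn (A := A) (fun t ht => hYA ?_) ?_
      · exact Set.mem_iUnion.2 ⟨(n, k), Finset.mem_coe.2 ht⟩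
      · exact (agree_glue A s p).leOn.trans hA (LeOn.of_le hsk)
    have h4 : a = a' := x.sv n a a' (glue A s p) ((x.reg n a).1 _ _ h2 hp)
      ((x.reg n a').1 _ _ h3 ha')
    rw [h4]
    exact (x.reg n a').1 _ _ hsk ha'

end Pool.Agent.HF
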