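import Pool.Agent.Lib.MP_a8a7e3_hf.Mg.G001

set_option linter.unusedSectionVars false
set_option linter.unusedVariables false

/-!
# Extending conditions
-/

namespace Pool.Agent.HF

variable {B I K : Type} [Preorder B] [PartialOrder I] [WellFoundedLT I]

/-- Add the coordinate `i` with empty stem and without names. -/
theorem exists_dom (p : Raw B I K) (i : I) : ∃ q ≤ p, i ∈ q.dom := by
  classical
  refine ⟨Raw.mk p.b (insert i p.dom) p.σ p.m p.r p.v, le_iff.2 ⟨le_rfl, fun s => ?_⟩,
    Finset.mem_insert_self _ _⟩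
  exact Step.of_eq (fun h => Finset.mem_insert_of_mem h) rfl fun j hj => ⟨j, hj, rfl, rfl⟩

/-- Strengthen the bottom condition (everything else unchanged). -/
theorem exists_bot (p : Raw B I K) {b : B} (hb : b ≤ p.b) : ∃ q ≤ p, q.b = b := by
  refine ⟨Raw.mk b p.dom p.σ p.m p.r p.v, le_iff.2 ⟨hb, fun s => ?_⟩, rfl⟩
  exact Step.of_eq id rfl fun j hj => ⟨j, hj, rfl, rfl⟩

/-- Add a name at the coordinate `i`. -/
theorem exists_addName (p : Raw B I K) (i : I) (r : ℕ → K → Raw B I K) (v : ℕ → K → ℕ) :
    ∃ q ≤ p, i ∈ q.dom ∧ ∃ j < q.m i, q.r i j = r ∧ q.v i j = v := by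
  classical
  refine ⟨Raw.mk p.b (insert i p.dom) p.σ (Function.update p.m i (p.m i + 1))
    (Function.update p.r i (fun j => if j < p.m i then p.r i j else r))
    (Function.update p.v i (fun j => if j < p.m i then p.v i j else v)),
    le_iff.2 ⟨le_rfl, fun s => ?_⟩, Finset.mem_insert_self _ _, p.m i, ?_, ?_, ?_⟩
  · refine Step.of_eq (fun h => Finset.mem_insert_of_mem h) rfl fun j hj => ?_
    by_cases hs : s = i
    · subst hs
      refine ⟨j, ?_, ?_, ?_⟩
      · show j < Function.update p.m s (p.m s + 1) s
        rw [Function.update_self]; omega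
      · show Function.update p.r s (fun j => if j < p.m s then p.r s j else r) s j = _
        rw [Function.update_self]; exact if_pos hj
      · show Function.update p.v s (fun j => if j < p.m s then p.v s j else v) s j = _
        rw [Function.update_self]; exact if_pos hj
    · refine ⟨j, ?_, ?_, ?_⟩
      · show j < Function.update p.m i (p.m i + 1) s
        rw [Function.update_of_ne hs]; exact hj
      · show Function.update p.r i (fun j => if j < p.m i then p.r i j else r) s j = _
        rw [Function.update_of_ne hs]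
      · show Function.update p.v i (fun j => if j < p.m i then p.v i j else v) s j = _
        rw [Function.update_of_ne hs]
  · show p.m i < Function.update p.m i (p.m i + 1) i
    rw [Function.update_self]; omega
  · show Function.update p.r i (fun j => if j < p.m i then p.r i j else r) i (p.m i) = _
    rw [Function.update_self]; exact if_neg (lt_irrefl _)
  · show Function.update p.v i (fun j => if j < p.m i then p.v i j else v) i (p.m i) = _
    rw [Function.update_self]; exact if_neg (lt_irrefl _)

/-- Bound finitely many names: induction on `J`.  If some `q''` below `q'` is below some `r k`, take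
`q''` and a value `≥ v k`; otherwise `Bd` holds at `q'` trivially. -/
theorem exists_bd (i : I) (r : ℕ → K → Raw B I K) (v : ℕ → K → ℕ) (J : ℕ) (p : Raw B I K) :
    ∃ q a, LeOn (Set.Iio i) q p ∧ ∀ j < J, Bd (Below i) (r j) (v j) a q := by
  induction J with
  | zero => exact ⟨p, 0, LeOn.refl _ _, fun j hj => absurd hj (Nat.not_lt_zero _)⟩
  | succ J ih =>
    obtain ⟨q, a, hq, hbd⟩ := ih
    by_cases hex : ∃ q'', LeOn (Set.Iio i) q'' q ∧ ∃ k, LeOn (Set.Iio i) q'' (r J k)
    · obtain ⟨q'', hq'', k, hk⟩ := hex
      refine ⟨q'', max a (v J k), hq''.trans (down_Iio i) hq, fun j hj => ?_⟩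
      rcases Nat.lt_succ_iff_lt_or_eq.1 hj with h | h
      · exact (bd_mono hq'' (hbd j h)).mono_val (le_max_left _ _)
      · subst h
        intro q₁ hq₁ k' _
        rw [below_eq] at hq₁
        refine ⟨q₁, ?_, k, ?_, le_max_right _ _⟩
        · rw [below_eq]; exact LeOn.refl _ _
        · rw [below_eq]; exact hq₁.trans (down_Iio i) hk
    · refine ⟨q, a, hq, fun j hj => ?_⟩
      rcases Nat.lt_succ_iff_lt_or_eq.1 hj with h | h
      · exact hbd j h
      · subst h
        intro q₁ hq₁ k hk
        rw [below_eq] at hq₁ hk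
        exact absurd ⟨q₁, hq₁, k, hk⟩ hex

/-- Extend the stem at the coordinate `i` by a large number of given parity.
Take `q'`, `a₀` from `exists_bd` for the names `p.r i j n`, `n = (p.σ i).length`, then
`glue (Set.Iio i) q' p` with the stem at `i` replaced by `p.σ i ++ [a]`, `a ≥ a₀`. -/
theorem exists_extend (p : Raw B I K) {i : I} (hi : i ∈ p.dom) (N : ℕ) (β : Bool) :
    ∃ q ≤ p, i ∈ q.dom ∧ ∃ a, N ≤ a ∧ a.bodd = β ∧ q.σ i = p.σ i ++ [a] := by
  classical
  obtain ⟨q', a₀, hq', hbd⟩ := exists_bd i (fun j => p.r i j (p.σ i).length)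
    (fun j => p.v i j (p.σ i).length) (p.m i) p
  obtain ⟨a, ha, haβ⟩ : ∃ a, max N a₀ ≤ a ∧ a.bodd = β := by
    refine ⟨Nat.bit β (max N a₀), ?_, Nat.bodd_bit _ _⟩
    rw [Nat.bit_val]; omega
  have hi' : i ∉ Set.Iio i := fun h => lt_irrefl i h
  obtain ⟨g1, g2, g3, g4, g5⟩ := glue_off (q := q') (p := p) hi'
  have hG : glue (Set.Iio i) q' p ≤ p := glue_le (down_Iio i) hq'
  obtain ⟨q, hqdef⟩ : ∃ q : Raw B I K, q = Raw.mk (glue (Set.Iio i) q' p).b
      (glue (Set.Iio i) q' p).dom (Function.update (glue (Set.Iio i) q' p).σ i (p.σ i ++ [a]))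
      (glue (Set.Iio i) q' p).m (glue (Set.Iio i) q' p).r (glue (Set.Iio i) q' p).v := ⟨_, rfl⟩
  have hσi : q.σ i = p.σ i ++ [a] := by
    rw [hqdef]
    show Function.update (glue (Set.Iio i) q' p).σ i (p.σ i ++ [a]) i = _
    rw [Function.update_self]
  have hσs : ∀ s, s ≠ i → q.σ s = (glue (Set.Iio i) q' p).σ s := by
    intro s hs
    rw [hqdef]
    show Function.update (glue (Set.Iio i) q' p).σ i (p.σ i ++ [a]) s = _
    rw [Function.update_of_ne hs]
  have hag : Agree (Set.Iio i) q (glue (Set.Iio i) q' p) := by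
    refine ⟨by rw [hqdef]; rfl, fun s hs => ⟨by rw [hqdef]; rfl, hσs s (ne_of_lt hs),
      by rw [hqdef]; rfl, by rw [hqdef]; rfl, by rw [hqdef]; rfl⟩⟩
  have hqq' : LeOn (Set.Iio i) q q' :=
    hag.leOn.trans (down_Iio i) (agree_glue (Set.Iio i) q' p).leOn
  have hle : q ≤ glue (Set.Iio i) q' p := by
    refine le_iff.2 ⟨by rw [hqdef]; exact le_rfl, fun s => ?_⟩
    by_cases hs : s = i
    · subst hs
      intro hdom
      refine ⟨by rw [hqdef]; exact hdom, ?_, fun j hj => ⟨j, ?_, ?_, ?_⟩, ?_⟩
      · rw [g2, hσi]; exact List.prefix_append _ _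
      · rw [hqdef]; exact hj
      · rw [hqdef]; rfl
      · rw [hqdef]; rfl
      · intro j hj n a' hn ha'
        rw [g2] at hn
        rw [g3] at hj
        rw [hσi] at ha'
        have hn' : n = (p.σ s).length := by
          by_contra hne
          have h1 : (p.σ s ++ [a])[n]? = none := by
            apply List.getElem?_eq_none
            rw [List.length_append, List.length_singleton]; omega
          rw [h1] at ha'
          cases ha'
        subst hn'
        rw [List.getElem?_append_right le_rfl, Nat.sub_self] at ha'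
        have hae : a = a' := by simpa using ha'
        subst hae
        rw [g4, g5]
        exact (bd_mono hqq' (hbd j hj)).mono_val ((le_max_right _ _).trans ha)
    · exact Step.of_eq (fun h => by rw [hqdef]; exact h) (hσs s hs)
        fun j hj => ⟨j, by rw [hqdef]; exact hj, by rw [hqdef]; rfl, by rw [hqdef]; rfl⟩
  exact ⟨q, hle.trans hG, by rw [hqdef]; exact g1.2 hi, a, (le_max_left _ _).trans ha, haβ, hσi⟩

/-- Extend the stem at the coordinate `i` to have length more than `n`. -/
theorem exists_long (p : Raw B I K) (i : I) (n : ℕ) :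
    ∃ q ≤ p, i ∈ q.dom ∧ n < (q.σ i).length := by
  induction n with
  | zero =>
    obtain ⟨q, hq, hi⟩ := exists_dom p i
    obtain ⟨q', hq', hi', a, _, _, h⟩ := exists_extend q hi 0 false
    exact ⟨q', hq'.trans hq, hi', by rw [h, List.length_append, List.length_singleton]; omega⟩
  | succ n ih =>
    obtain ⟨q, hq, hi, hn⟩ := ih
    obtain ⟨q', hq', hi', a, _, _, h⟩ := exists_extend q hi 0 false
    exact ⟨q', hq'.trans hq, hi', by rw [h, List.length_append, List.length_singleton]; omega⟩

end Pool.Agent.HF
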