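import Pool.Agent.Lib.MP_a8a7e3_hf.Mg.G002

set_option linter.unusedSectionVars false
set_option linter.unusedVariables false

/-!
# The poset forces the Hechler principle
-/

namespace Pool.Agent.HF

open Cardinal Pool.Agent.KM

theorem lex_lt {R : Type} [PartialOrder R] {s t : R} (h : s < t) (i j : Bool) :
    (toLex (s, i) : R ×ₗ Bool) < toLex (t, j) := by
  rw [Prod.Lex.toLex_lt_toLex]
  exact Or.inl h

theorem lex_lt' {R : Type} [PartialOrder R] (t : R) :
    (toLex (t, false) : R ×ₗ Bool) < toLex (t, true) := by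
  rw [Prod.Lex.toLex_lt_toLex]
  exact Or.inr ⟨rfl, Bool.false_lt_true⟩

theorem le_of_lex {R : Type} [PartialOrder R] {s t : R} {i j : Bool}
    (h : (toLex (s, i) : R ×ₗ Bool) ≤ toLex (t, j)) : s ≤ t := by
  rw [Prod.Lex.toLex_le_toLex] at h
  rcases h with h | h
  · exact h.le
  · exact h.1.le

theorem fHechlerPrinciple_poset {Ω₁ Ω₂ R : Type} [LinearOrder Ω₂] [PartialOrder R]
    [WellFoundedLT R] {K : ℕ → Type} [∀ i, LinearOrder (K i)] {π : ∀ i, R → K i}
    (h : IsIndex Ω₁ Ω₂ R K π) (p : HPoset Ω₁ R) :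
    fHechlerPrinciple (HPoset Ω₁ R) Ω₂ R K π p := by
  classical
  have hB : #(Col Ω₁) ≤ ℵ₁ := card_col h.card₁
  have hK : #Ω₁ = ℵ₁ := h.card₁
  let c : FunName (HPoset Ω₁ R) (R × ℕ) Bool :=
    { app := fun x a => (co (toLex (x.1, false))).app x.2 a
      reg := fun x a => (co (toLex (x.1, false))).reg x.2 a
      sv := fun x a b p => (co (toLex (x.1, false))).sv x.2 a b p
      tot := fun x p => (co (toLex (x.1, false))).tot x.2 p }
  let d : FunName (HPoset Ω₁ R) (R × ℕ) ℕ :=
    { app := fun x a => (he (toLex (x.1, true))).app x.2 a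
      reg := fun x a => (he (toLex (x.1, true))).reg x.2 a
      sv := fun x a b p => (he (toLex (x.1, true))).sv x.2 a b p
      tot := fun x p => (he (toLex (x.1, true))).tot x.2 p }
  have hc : ∀ t, row c t = co (toLex (t, false)) := fun t => rfl
  have hd : ∀ t, row d t = he (toLex (t, true)) := fun t => rfl
  intro p' hp'
  refine ⟨p', le_rfl, c, fun q hq => ⟨q, le_rfl, d, ?_, ?_, h.mono, h.unb, ?_, ?_, ?_, ?_, ?_, ?_, ?_⟩⟩
  · intro ξ
    exact f_seg h.card₁ ξ (h.seg₂ ξ) q
  · exact f_anti hB h.card₂ h.anti q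
  · intro i
    exact f_dir hB (π i) (h.dir i) q
  · exact f_unc hB (h.large 0) (h.reg 0) q
  · intro i
    exact f_reg hB (h.large i) (h.seg i) (h.reg i) q
  · intro i
    exact f_incr hB (h.large (i + 1)) (h.incr i) (h.reg (i + 1)) q
  · -- cap
    intro s t q' hq' hst
    rw [hc, hd, hc, hd]
    exact capture hB hK (lex_lt' t)
      (fun n β => sp_co (show toLex (s, false) ∈ Set.Iio (toLex (t, false)) from
        lex_lt hst _ _) n β)
      (fun n a => sp_he (show toLex (s, true) ∈ Set.Iio (toLex (t, false)) from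
        lex_lt hst _ _) n a) q'
  · -- cof
    intro y e q' hq'
    obtain ⟨Y, hY, hy⟩ := exists_support hB hK y
    obtain ⟨E, hE, he'⟩ := exists_support hB hK e
    obtain ⟨t, ht⟩ := h.bdd ((fun z : R ×ₗ Bool => (ofLex z).1) '' (Y ∪ E)) (by
      refine Cardinal.mk_image_le.trans ((Cardinal.mk_union_le _ _).trans ?_)
      exact (add_le_add hY hE).trans (Cardinal.add_eq_self (Cardinal.aleph0_le_aleph 1)).le)
    refine ⟨q', le_rfl, t, ?_⟩
    show fTri y e (row c t) (row d t) q'
    rw [hc, hd]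
    have hsub : Y ∪ E ⊆ Set.Iio (toLex (t, false)) := by
      intro z hz
      exact lex_lt (i := (ofLex z).2) (ht _ ⟨z, hz, rfl⟩) _
    exact capture hB hK (lex_lt' t)
      (hy _ (down_Iio _) (Set.subset_union_left.trans hsub))
      (he' _ (down_Iio _) (Set.subset_union_right.trans hsub)) q'
  · -- opp
    intro s t q' hq' hst
    rw [hc, hc, hd]
    refine opposite (A := Set.Iic (toLex (t, true))) (down_Iic _) (fun hmem => hst (le_of_lex hmem))
      (fun n β => sp_co ?_ n β) (fun n a => sp_he ?_ n a) q'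
    · exact (lex_lt' t).le
    · exact Set.mem_Iic.2 le_rfl

end Pool.Agent.HF
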