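import Pool.Agent.Lib.MP_a8a7e3_hf.Ext
import Pool.Agent.Lib.MP_a8a7e3_hf.Compat

set_option linter.unusedSectionVars false
set_option linter.unusedVariables false

/-!
# The generic reals
-/

namespace Pool.Agent.HF

open Cardinal Pool.Agent.KM

variable {B I K : Type} [Preorder B] [PartialOrder I] [WellFoundedLT I]

theorem he_getElem {l l' : List ℕ} (h : l <+: l') {n a : ℕ} (ha : l[n]? = some a) :
    l'[n]? = some a := by
  obtain ⟨t, rfl⟩ := h
  rw [List.getElem?_append_left (List.getElem?_eq_some_iff.1 ha).1]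
  exact ha

theorem he_step {L : Raw B I K → Raw B I K → Prop} {i : I} {q p : Raw B I K} {n a : ℕ}
    (h : Step L i q p) (hp : i ∈ p.dom ∧ (p.σ i)[n]? = some a) :
    i ∈ q.dom ∧ (q.σ i)[n]? = some a :=
  ⟨(h hp.1).1, he_getElem (h hp.1).2.1 hp.2⟩

/-- extend the stem to the length `n` -/
theorem he_long (i : I) (n : ℕ) (p : Raw B I K) (hi : i ∈ p.dom) (k : ℕ)
    (hk : (p.σ i).length + k = n) : ∃ q ≤ p, i ∈ q.dom ∧ (q.σ i).length = n := by
  induction k generalizing p with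
  | zero => exact ⟨p, le_rfl, hi, hk⟩
  | succ k ih =>
    obtain ⟨q, hq, hqi, a, _, _, hσ⟩ := exists_extend p hi 0 true
    obtain ⟨r, hr, hri, hrn⟩ := ih q hqi (by
      rw [hσ, List.length_append, List.length_singleton]
      omega)
    exact ⟨r, hr.trans hq, hri, hrn⟩

/-- an undecided value can be decided in different ways -/
theorem he_value (i : I) (n N : ℕ) (β : Bool) (p : Raw B I K)
    (h : ¬ (i ∈ p.dom ∧ n < (p.σ i).length)) :
    ∃ q ≤ p, i ∈ q.dom ∧ ∃ a, N ≤ a ∧ a.bodd = β ∧ (q.σ i)[n]? = some a := by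
  classical
  by_cases hi : i ∈ p.dom
  · have hn : (p.σ i).length ≤ n := not_lt.1 fun h' => h ⟨hi, h'⟩
    obtain ⟨q, hq, hqi, hqn⟩ := he_long i n p hi (n - (p.σ i).length) (by omega)
    obtain ⟨r, hr, hri, a, h1, h2, h3⟩ := exists_extend q hqi N β
    refine ⟨r, hr.trans hq, hri, a, h1, h2, ?_⟩
    rw [h3, ← hqn, List.getElem?_append_right le_rfl, Nat.sub_self]
    rfl
  · refine ⟨Raw.mk p.b (insert i p.dom)
      (Function.update p.σ i (List.replicate (n + 1) (Nat.bit β N))) p.m p.r p.v, ?_,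
      Finset.mem_insert_self i _, Nat.bit β N, ?_, Nat.bodd_bit β N, ?_⟩
    · refine le_iff.2 ⟨le_rfl, fun s => ?_⟩
      by_cases hs : s = i
      · subst hs
        exact fun h' => absurd h' hi
      · exact Step.of_eq (fun h' => Finset.mem_insert_of_mem h') (Function.update_of_ne hs _ _)
          fun j hj => ⟨j, hj, rfl, rfl⟩
    · rw [Nat.bit_val]
      omega
    · show (Function.update p.σ i (List.replicate (n + 1) (Nat.bit β N)) i)[n]? = _
      rw [Function.update_self, List.getElem?_replicate, if_pos (Nat.lt_succ_self n)]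

/-- The Hechler real at the coordinate `i`. -/
def he (i : I) : FunName (Raw B I K) ℕ ℕ where
  app n a p := i ∈ p.dom ∧ (p.σ i)[n]? = some a
  reg n a := by
    refine ⟨fun p q hq hp => he_step (hq.2 i trivial) hp, fun p hp => ?_⟩
    by_cases h : i ∈ p.dom ∧ n < (p.σ i).length
    · obtain ⟨r, hr, hr'⟩ := hp p le_rfl
      have h1 := he_step (hr.2 i trivial) (n := n) (a := (p.σ i)[n]'h.2)
        ⟨h.1, List.getElem?_eq_getElem h.2⟩
      refine ⟨h.1, ?_⟩
      rw [List.getElem?_eq_getElem h.2, ← h1.2]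
      exact hr'.2
    · obtain ⟨q, hq, hqi, b, hb, _, hv⟩ := he_value i n (a + 1) true p h
      obtain ⟨r, hr, hr'⟩ := hp q hq
      have h1 := he_step (hr.2 i trivial) ⟨hqi, hv⟩
      have h2 := hr'.2
      rw [h1.2] at h2
      have h3 := Option.some.inj h2
      omega
  sv n a a' p h h' := by
    have h1 := h.2
    rw [h'.2] at h1
    exact (Option.some.inj h1).symm
  tot n p := by
    obtain ⟨q, hq, hqi, hn⟩ := exists_long p i n
    exact ⟨q, hq, (q.σ i)[n]'hn, hqi, List.getElem?_eq_getElem hn⟩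

/-- The Cohen real at the coordinate `i`, the parities of the Hechler real. -/
def co (i : I) : FunName (Raw B I K) ℕ Bool where
  app n β p := i ∈ p.dom ∧ ∃ a, (p.σ i)[n]? = some a ∧ a.bodd = β
  reg n β := by
    refine ⟨fun p q hq hp => ?_, fun p hp => ?_⟩
    · obtain ⟨h1, a, h2, h3⟩ := hp
      have h4 := he_step (hq.2 i trivial) ⟨h1, h2⟩
      exact ⟨h4.1, a, h4.2, h3⟩
    by_cases h : i ∈ p.dom ∧ n < (p.σ i).length
    · obtain ⟨r, hr, _, a, hr', hβ⟩ := hp p le_rfl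
      have h1 := he_step (hr.2 i trivial) (n := n) (a := (p.σ i)[n]'h.2)
        ⟨h.1, List.getElem?_eq_getElem h.2⟩
      refine ⟨h.1, (p.σ i)[n]'h.2, List.getElem?_eq_getElem h.2, ?_⟩
      have h2 := h1.2
      rw [hr'] at h2
      rw [← Option.some.inj h2, hβ]
    · obtain ⟨q, hq, hqi, b, _, hb, hv⟩ := he_value i n 0 (!β) p h
      obtain ⟨r, hr, _, a, hr', hβ⟩ := hp q hq
      have h1 := he_step (hr.2 i trivial) ⟨hqi, hv⟩
      have h2 := h1.2
      rw [hr'] at h2
      rw [Option.some.inj h2, hb] at hβ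
      cases β <;> simp at hβ
  sv n β β' p h h' := by
    obtain ⟨a, h1, h2⟩ := h.2
    obtain ⟨a', h1', h2'⟩ := h'.2
    rw [h1] at h1'
    cases h1'
    rw [← h2, ← h2']
  tot n p := by
    obtain ⟨q, hq, hqi, hn⟩ := exists_long p i n
    exact ⟨q, hq, ((q.σ i)[n]'hn).bodd, hqi, (q.σ i)[n]'hn, List.getElem?_eq_getElem hn, rfl⟩

theorem sp_he {A : Set I} {i : I} (hi : i ∈ A) (n a : ℕ) :
    SP A ((he i : FunName (Raw B I K) ℕ ℕ).app n a) := by
  intro p q hq hp
  exact he_step (hq.2 i hi) hp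

theorem sp_co {A : Set I} {i : I} (hi : i ∈ A) (n : ℕ) (β : Bool) :
    SP A ((co i : FunName (Raw B I K) ℕ Bool).app n β) := by
  intro p q hq hp
  obtain ⟨h1, a, h2, h3⟩ := hp
  have h4 := he_step (hq.2 i hi) ⟨h1, h2⟩
  exact ⟨h4.1, a, h4.2, h3⟩

/-- The Hechler real dominates: if for every `n` there is an `m` with `Φ n m`, where `Φ` depends only
on the coordinates below `i`, then for almost all `n` there is such an `m` which is at most the value
of the Hechler real at `n`.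
For each `n` take a predense family `r n k`, `k ∈ K`, and `v n k` with `Φ n (v n k)` forced by
`r n k` (`exists_predense`), and add the name `(r, v)` at `i` (`exists_addName`) to get `q`; let `N`
be the length of the stem.  If `q' ≤ q` and the stem of `q'` at `i` has length `> n` and value `a` at
`n`, then `Bd (Below i) (r n) (v n) a q'`; take `q'' ≤ q'` below some `r n k`, then
`LeOn (Set.Iio i) q₃ q''` and `LeOn (Set.Iio i) q₃ (r n k')` with `v n k' ≤ a`, and glue `q₃` with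
`q''`. -/
theorem dominate (hB : #B ≤ ℵ₁) (hK : #K = ℵ₁) (i : I) (Φ : ℕ → ℕ → Raw B I K → Prop)
    (hΦ : ∀ n m, SP (Set.Iio i) (Φ n m)) (hd : ∀ n p, ∃ q ≤ p, ∃ m, Φ n m q) (p : Raw B I K) :
    (fEx fun N : ℕ => fAll fun n : ℕ => fImp (fFact (N ≤ n)) (fEx fun x : ℕ × ℕ =>
      fAnd (fFact (x.1 ≤ x.2)) (fAnd ((he i).app n x.2) (Φ n x.1)))) p := by
  intro p₀ hp₀
  have hne : Nonempty B := ⟨p.b⟩
  have hpd : ∀ n, ∃ r : K → Raw B I K, (∀ k, ∃ m, Φ n m (r k)) ∧
      ∀ p, ∃ q ≤ p, ∃ k, q ≤ r k := fun n =>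
    exists_predense hB hK (fun q => ∃ m, Φ n m q) (hd n)
  choose r hr hpre using hpd
  choose v hv using hr
  obtain ⟨q, hq, hqi, j, hj, hrj, hvj⟩ := exists_addName p₀ i r v
  refine ⟨q, hq, (q.σ i).length, fun n q₁ hq₁ hN q₂ hq₂ => ?_⟩
  obtain ⟨q', hq', hq'i, hn⟩ := exists_long q₂ i n
  have hq'q : q' ≤ q := hq'.trans (hq₂.trans hq₁)
  have hbd := ((hq'q.2 i trivial) hqi).2.2.2 j hj n ((q'.σ i)[n]'hn) hN
    (List.getElem?_eq_getElem hn)
  rw [hrj, hvj] at hbd
  obtain ⟨q'', hq'', k, hk⟩ := hpre n q'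
  obtain ⟨q₃, h1, k', h2, h3⟩ := hbd q'' (by rw [below_eq]; exact LeOn.of_le hq'') k
    (by rw [below_eq]; exact LeOn.of_le hk)
  rw [below_eq] at h1 h2
  have hg : glue (Set.Iio i) q₃ q'' ≤ q'' := glue_le (down_Iio i) h1
  refine ⟨glue (Set.Iio i) q₃ q'', hg.trans (hq''.trans hq'), (v n k', (q'.σ i)[n]'hn), h3, ?_, ?_⟩
  · exact he_step ((hg.trans hq'').2 i trivial) ⟨hq'i, List.getElem?_eq_getElem hn⟩
  · exact hΦ n (v n k') (r n k') _
      ((agree_glue (Set.Iio i) q₃ q'').leOn.trans (down_Iio i) h2) (hv n k')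

/-- `q ⊩ s is the sequence of the first digits of c` -/
def fBits (c : FunName (Raw B I K) ℕ Bool) (s : List Bool) : Raw B I K → Prop :=
  fAll fun n : ℕ => fAll fun β : Bool => fImp (fFact (s[n]? = some β)) (c.app n β)

theorem cohen_generic_ext {i : I} (t : List Bool) : ∀ {g : Raw B I K}, i ∈ g.dom →
    ∃ r ≤ g, i ∈ r.dom ∧ ∃ l, r.σ i = g.σ i ++ l ∧ l.map Nat.bodd = t := by
  induction t with
  | nil =>
    intro g hi
    exact ⟨g, le_rfl, hi, [], by simp, rfl⟩
  | cons β t ih =>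
    intro g hi
    obtain ⟨q, hq, hiq, a, -, hab, hσ⟩ := exists_extend g hi 0 β
    obtain ⟨r, hr, hir, l, hl, hlt⟩ := ih hiq
    refine ⟨r, hr.trans hq, hir, a :: l, ?_, ?_⟩
    · rw [hl, hσ, List.append_assoc]; rfl
    · rw [List.map_cons, hab, hlt]

/-- The Cohen real at `i` meets every dense set of finite sequences in the extension by the
coordinates in `A`, `i ∉ A`.
Given `p` with `i` in the domain, let `s` be the parities of the stem at `i`; take `q' ≤ p` and `t`
extending `s` with `D t q'`, then `glue A q' p ≤ p` satisfies `D t` and has the same stem at `i`;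
extend the stem by numbers with the parities given by `t` (`exists_extend`). -/
theorem cohen_generic {i : I} {A : Set I} (hA : Down A) (hi : i ∉ A)
    (D : List Bool → Raw B I K → Prop) (hD : ∀ s, SP A (D s))
    (hd : ∀ s p, ∃ q ≤ p, ∃ t, s <+: t ∧ D t q) (p : Raw B I K) :
    (fEx fun s : List Bool => fAnd (fBits (co i) s) (D s)) p := by
  intro q hq
  obtain ⟨q₁, hq₁, hi₁⟩ := exists_dom q i
  obtain ⟨q', hq', t, ht, hDt⟩ := hd ((q₁.σ i).map Nat.bodd) q₁
  obtain ⟨t', rfl⟩ := ht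
  have hg : glue A q' q₁ ≤ q₁ := glue_le hA (LeOn.of_le hq')
  have hoff := glue_off (q := q') (p := q₁) hi
  have hDg : D ((q₁.σ i).map Nat.bodd ++ t') (glue A q' q₁) :=
    hD _ _ _ (agree_glue A q' q₁).leOn hDt
  obtain ⟨r, hr, hir, l, hl, hlt⟩ := cohen_generic_ext t' (hoff.1.2 hi₁)
  refine ⟨r, hr.trans (hg.trans hq₁), (q₁.σ i).map Nat.bodd ++ t', ?_, (hD _).pers _ _ hr hDg⟩
  intro n β q₂ hq₂ hβ
  have hβ' : ((q₁.σ i).map Nat.bodd ++ t')[n]? = some β := hβ
  have e : (q₁.σ i).map Nat.bodd ++ t' = (r.σ i).map Nat.bodd := by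
    rw [hl, hoff.2.1, List.map_append, hlt]
  rw [e, List.getElem?_map] at hβ'
  obtain ⟨a, ha, hab⟩ := Option.map_eq_some_iff.1 hβ'
  exact ((co i).reg n β).mono hq₂ ⟨hir, a, ha, hab⟩

end Pool.Agent.HF
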