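import Pool.Agent.Lib.MP_a8a7e3_hf.Capt

set_option linter.unusedSectionVars false
set_option linter.unusedVariables false

/-!
# The Hechler principle
-/

namespace Pool.Agent.HF

open Cardinal Pool.Agent.KM

/-- A system of reals `c t`, `d t`, indexed by a poset `R`.
`Ω` is a well-order with countable initial segments, `R` is a well-founded poset, `K 0, K 1, …` are
well-orders (in the principle below).
`anti`: every function from `Ω` to `R` takes comparable values at some two places;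
`unc`, `reg`, `incr`: the order types of `K 0, K 1, …` are strictly increasing regular uncountable
cardinals;
`mono`, `unb`, `dir`: the map `π i : R → K i` is monotone and unbounded, and countably many `t` with
`π i t ≤ a` have an upper bound with the same property;
`cap`, `cof`, `opp`: the meager sets coded by the pairs `(c t, d t)` increase with `t` and are cofinal
in the meager sets, and `c s` is infinitely often opposite to `c t` on the intervals given by `d t`
unless `s ≤ t`. -/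
structure IsHechlerSystem (Ω R : Type) [LinearOrder Ω] [PartialOrder R] (K : ℕ → Type)
    [∀ i, LinearOrder (K i)] (π : ∀ i, R → K i) (c : R → ℕ → Bool) (d : R → ℕ → ℕ) : Prop where
  seg : ∀ ξ : Ω, ∃ g : ℕ → Ω, ∀ η < ξ, ∃ n, g n = η
  anti : ∀ f : Ω → R, ∃ ξ η, ξ ≠ η ∧ f ξ ≤ f η
  mono : ∀ i s t, s ≤ t → π i s ≤ π i t
  unb : ∀ i a, ∃ s, a < π i s
  dir : ∀ i a, ∀ g : ℕ → R, (∀ n, π i (g n) ≤ a) → ∃ t, π i t ≤ a ∧ ∀ n, g n ≤ t
  unc : ∀ g : ℕ → K 0, ∃ b, ∀ n, g n < b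
  reg : ∀ i a, ∀ g : K i → K i, ∃ b, ∀ x < a, g x < b
  incr : ∀ i, ∀ g : K i → K (i + 1), ∃ b, ∀ x, g x < b
  cap : ∀ s t, s < t → Tri (c s) (d s) (c t) (d t)
  cof : ∀ (y : ℕ → Bool) (e : ℕ → ℕ), ∃ t, Tri y e (c t) (d t)
  opp : ∀ s t, ¬ s ≤ t → Opp (c s) (c t) (d t)

/-- There is a system as above, for well-orders `Ω` and `K i` and a well-founded poset `R`. -/
def HechlerPrinciple : Prop :=
  ∃ (Ω R : Type) (_ : LinearOrder Ω) (_ : WellFoundedLT Ω) (_ : PartialOrder R)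
    (_ : WellFoundedLT R) (K : ℕ → Type) (_ : ∀ i, LinearOrder (K i))
    (_ : ∀ i, WellFoundedLT (K i)) (π : ∀ i, R → K i) (c : R → ℕ → Bool) (d : R → ℕ → ℕ),
    IsHechlerSystem Ω R K π c d

section

variable {P : Type} [Preorder P]

/-- The name of the row `c t`, for a name `c` of a family of functions. -/
def row {R X : Type} (c : FunName P (R × ℕ) X) (t : R) : FunName P ℕ X where
  app n a := c.app (t, n) a
  reg _ _ := c.reg _ _
  sv _ _ _ _ h h' := c.sv _ _ _ _ h h'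
  tot _ p := c.tot _ p

/-- `p ⊩ c, d is a Hechler system`, for ground model posets `Ω`, `R`, `K i` and maps `π i`. -/
def fIsHechlerSystem (Ω R : Type) [LinearOrder Ω] [PartialOrder R] (K : ℕ → Type)
    [∀ i, LinearOrder (K i)] (π : ∀ i, R → K i) (c : FunName P (R × ℕ) Bool)
    (d : FunName P (R × ℕ) ℕ) : P → Prop :=
  fAnd (fAll fun ξ : Ω => fEx fun g : FunName P ℕ Ω => fAll fun η : Ω => fImp (fFact (η < ξ))
    (fEx fun n : ℕ => g.app n η)) <|
  fAnd (fAll fun f : FunName P Ω R => fEx fun z : (Ω × Ω) × (R × R) =>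
    fAnd (fFact (z.1.1 ≠ z.1.2 ∧ z.2.1 ≤ z.2.2))
      (fAnd (f.app z.1.1 z.2.1) (f.app z.1.2 z.2.2))) <|
  fAnd (fFact (∀ i s t, s ≤ t → π i s ≤ π i t)) <|
  fAnd (fFact (∀ i a, ∃ s, a < π i s)) <|
  fAnd (fAll fun i : ℕ => fAll fun a : K i => fAll fun g : FunName P ℕ R =>
    fImp (fAll fun n : ℕ => fAll fun t : R => fImp (g.app n t) (fFact (π i t ≤ a)))
      (fEx fun t : R => fAnd (fFact (π i t ≤ a))
        (fAll fun n : ℕ => fAll fun s : R => fImp (g.app n s) (fFact (s ≤ t))))) <|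
  fAnd (fAll fun g : FunName P ℕ (K 0) => fEx fun b : K 0 => fAll fun n : ℕ => fAll fun x : K 0 =>
    fImp (g.app n x) (fFact (x < b))) <|
  fAnd (fAll fun i : ℕ => fAll fun a : K i => fAll fun g : FunName P (K i) (K i) =>
    fEx fun b : K i => fAll fun x : K i => fImp (fFact (x < a))
      (fAll fun y : K i => fImp (g.app x y) (fFact (y < b)))) <|
  fAnd (fAll fun i : ℕ => fAll fun g : FunName P (K i) (K (i + 1)) => fEx fun b : K (i + 1) =>
    fAll fun x : K i => fAll fun y : K (i + 1) => fImp (g.app x y) (fFact (y < b))) <|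
  fAnd (fAll fun s : R => fAll fun t : R => fImp (fFact (s < t))
    (fTri (row c s) (row d s) (row c t) (row d t))) <|
  fAnd (fAll fun y : FunName P ℕ Bool => fAll fun e : FunName P ℕ ℕ => fEx fun t : R =>
    fTri y e (row c t) (row d t)) <|
  fAll fun s : R => fAll fun t : R => fImp (fFact (¬ s ≤ t))
    (fOpp (row c s) (row c t) (row d t))

/-- `p ⊩ there is a Hechler system` with the ground model posets `Ω`, `R`, `K i` and maps `π i`. -/
def fHechlerPrinciple (P : Type) [Preorder P] (Ω R : Type) [LinearOrder Ω] [PartialOrder R]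
    (K : ℕ → Type) [∀ i, LinearOrder (K i)] (π : ∀ i, R → K i) : P → Prop :=
  fEx fun c : FunName P (R × ℕ) Bool => fEx fun d : FunName P (R × ℕ) ℕ =>
    fIsHechlerSystem Ω R K π c d

end

/-! ## The poset -/

/-- The finite sequences of elements of `Ω₁`; longer sequences are stronger. -/
structure Col (Ω₁ : Type) where
  l : List Ω₁

instance {Ω₁ : Type} : Preorder (Col Ω₁) where
  le q p := p.l <+: q.l
  le_refl p := List.prefix_refl _
  le_trans _ _ _ h h' := h'.trans h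

instance {Ω₁ : Type} : Nonempty (Col Ω₁) := ⟨⟨[]⟩⟩

/-- The poset: the collapse of `Ω₁` to `ω`, followed by the iteration along `R × {0, 1}`
(lexicographically ordered) of Hechler forcing. -/
abbrev HPoset (Ω₁ R : Type) [PartialOrder R] [WellFoundedLT R] : Type :=
  Raw (Col Ω₁) (R ×ₗ Bool) Ω₁

/-- The data in the ground model. -/
structure IsIndex (Ω₁ Ω₂ R : Type) [LinearOrder Ω₂] [PartialOrder R] (K : ℕ → Type)
    [∀ i, LinearOrder (K i)] (π : ∀ i, R → K i) : Prop where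
  card₁ : #Ω₁ = ℵ₁
  card₂ : #Ω₂ = ℵ_ 2
  seg₂ : ∀ ξ : Ω₂, #(Set.Iio ξ) ≤ ℵ₁
  anti : ∀ f : Ω₂ → R, ∃ ξ η, ξ ≠ η ∧ f ξ ≤ f η
  mono : ∀ i s t, s ≤ t → π i s ≤ π i t
  unb : ∀ i a, ∃ s, a < π i s
  bdd : ∀ Y : Set R, #Y ≤ ℵ₁ → ∃ t, ∀ y ∈ Y, y < t
  dir : ∀ i a, ∀ Y : Set R, #Y ≤ ℵ₁ → (∀ y ∈ Y, π i y ≤ a) → ∃ t, π i t ≤ a ∧ ∀ y ∈ Y, y ≤ t
  large : ∀ i, ℵ₁ < #(K i)
  incr : ∀ i, #(K i) < #(K (i + 1))
  seg : ∀ i (a : K i), #(Set.Iio a) < #(K i)
  reg : ∀ i (Y : Set (K i)), #Y < #(K i) → ∃ b, ∀ y ∈ Y, y < b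

end Pool.Agent.HF
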