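import Pool.Agent.Lib.MP_a8a7e3_hf.Mg.G002
import Pool.Agent.Lib.MP_a8a7e3_hf.HP

set_option linter.unusedSectionVars false
set_option linter.unusedVariables false

namespace Pool.Agent.HFC

open Cardinal Filter Pool.Agent.HF

/-- The ground model data exist under CH and `2 ^ ℵ_ω = ℵ_{ω+1}`.
`K n = (ℵ_ (n + 3)).ord.ToType`, `Λ = (ℵ_ (ω + 1)).ord.ToType`, `R = RS h` for `h` from
`exists_scale`, `π i s = s.1 i`; `card_Iio_lt`, `exists_bound`, `card_of_type` from
MP_8c1a1d_lc/Support. -/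
theorem exists_index (hCH : Cardinal.continuum = ℵ₁)
    (h2 : (2 : Cardinal.{0}) ^ ℵ_ Ordinal.omega0 = ℵ_ (Ordinal.omega0 + 1)) :
    ∃ (Ω₁ Ω₂ R : Type) (_ : LinearOrder Ω₂) (_ : WellFoundedLT Ω₂) (_ : PartialOrder R)
      (_ : WellFoundedLT R) (K : ℕ → Type) (_ : ∀ i, LinearOrder (K i))
      (_ : ∀ i, WellFoundedLT (K i)) (π : ∀ i, R → K i), IsIndex Ω₁ Ω₂ R K π := by
  classical
  let K : ℕ → Type := fun n => (ℵ_ ((n : Ordinal.{0}) + 3)).ord.ToType
  have hK : ∀ n, Ordinal.type (fun a b : K n => a < b) = (ℵ_ ((n : Ordinal.{0}) + 3)).ord :=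
    fun n => Ordinal.type_toType _
  let Λ : Type := (ℵ_ (Ordinal.omega0 + 1)).ord.ToType
  have hΛ : Ordinal.type (fun a b : Λ => a < b) = (ℵ_ (Ordinal.omega0 + 1)).ord :=
    Ordinal.type_toType _
  obtain ⟨h, hmono, hcof, hleast⟩ := exists_scale hK h2 hΛ
  let Ω₂ : Type := (ℵ_ 2).ord.ToType
  have h₂ : Ordinal.type (fun a b : Ω₂ => a < b) = (ℵ_ 2).ord := Ordinal.type_toType _
  have hwf : WellFoundedLT (RS h) := rs_wf hmono
  have hreg : ∀ n : ℕ, (ℵ_ ((n : Ordinal.{0}) + 3)).IsRegular := by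
    intro n
    have h1 := Cardinal.isRegular_aleph_add_one ((n : Ordinal.{0}) + 2)
    rwa [add_assoc, show (2 : Ordinal.{0}) + 1 = 3 from two_add_one_eq_three] at h1
  have hcard : ∀ n : ℕ, #(K n) = ℵ_ ((n : Ordinal.{0}) + 3) := fun n =>
    Pool.Agent.KM.card_of_type (hK n)
  have h21 : (ℵ_ 2 : Cardinal.{0}) = Order.succ ℵ₁ := by
    rw [Cardinal.succ_aleph, one_add_one_eq_two]
  refine ⟨(ℵ₁ : Cardinal.{0}).ord.ToType, Ω₂, RS h, inferInstance, inferInstance, inferInstance,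
    hwf, K, fun i => inferInstance, fun i => inferInstance, fun i s => s.1 i, ?_⟩
  exact
  { card₁ := Cardinal.mk_ord_toType _
    card₂ := Pool.Agent.KM.card_of_type h₂
    seg₂ := fun ξ => by
      have h3 := Pool.Agent.KM.card_Iio_lt h₂ ξ
      exact Order.lt_succ_iff.1 (lt_of_lt_of_eq h3 h21)
    anti := rs_anti hCH hK hmono h₂
    mono := fun i s t hst => hst i
    unb := fun i a => rs_unb hK hcof i a
    bdd := fun Y hY => rs_bdd hK hmono hcof Y hY
    dir := fun i a Y hY hYa => rs_dir hK hmono hcof hleast i a Y hY hYa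
    large := fun i => by
      rw [hcard i]
      refine Cardinal.aleph_lt_aleph.2 ?_
      have h3 : (3 : Ordinal.{0}) ≤ (i : Ordinal.{0}) + 3 := le_add_self
      refine lt_of_lt_of_le ?_ h3
      exact_mod_cast (by norm_num : (1 : ℕ) < 3)
    incr := fun i => by
      rw [hcard i, hcard (i + 1)]
      refine Cardinal.aleph_lt_aleph.2 ?_
      exact_mod_cast (by omega : i + 3 < (i + 1) + 3)
    seg := fun i a => by
      rw [hcard i]
      exact Pool.Agent.KM.card_Iio_lt (hK i) a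
    reg := fun i Y hY => Pool.Agent.KM.exists_bound (hreg i) (hK i) Y (by rwa [hcard i] at hY) }

end Pool.Agent.HFC
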