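import Pool.Agent.Lib.MP_8c1a1d_lc.Basic

set_option linter.unusedSectionVars false
set_option linter.unusedVariables false

/-!
# Finite support iteration of Hechler forcing along a well-founded poset

`I` is a well-founded index set, `B` a poset of bottom conditions, `K` an index set for names.  A
condition consists of a bottom condition, a finite set of coordinates `dom`, and for each coordinate
`i` a finite sequence `σ i` of natural numbers (the stem) and finitely many names `(r i j, v i j)`,
`j < m i`, for functions `ℕ → ℕ`: the name gives to `n` the least value `v i j n k` such that the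
condition `r i j n k` is in the generic filter, `k ∈ K`.  Here only the part of the condition
`r i j n k` below the coordinate `i` matters.  The names are promises: all further members of the
stem are at least as large as the values of the names.
-/

namespace Pool.Agent.HF

/-- The conditions: `triv b` is the condition with bottom part `b` and empty domain. -/
inductive Raw (B I K : Type) : Type
  | triv (b : B) : Raw B I K
  | mk (b : B) (dom : Finset I) (σ : I → List ℕ) (m : I → ℕ)
      (r : I → ℕ → ℕ → K → Raw B I K) (v : I → ℕ → ℕ → K → ℕ) : Raw B I K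

namespace Raw

variable {B I K : Type}

/-- the bottom part -/
def b : Raw B I K → B
  | triv b => b
  | mk b _ _ _ _ _ => b

/-- the domain -/
def dom : Raw B I K → Finset I
  | triv _ => ∅
  | mk _ d _ _ _ _ => d

/-- the stems -/
def σ : Raw B I K → I → List ℕ
  | triv _ => fun _ => []
  | mk _ _ s _ _ _ => s

/-- the numbers of names -/
def m : Raw B I K → I → ℕ
  | triv _ => fun _ => 0
  | mk _ _ _ m _ _ => m

/-- the conditions in the names -/
def r : Raw B I K → I → ℕ → ℕ → K → Raw B I K
  | triv b => fun _ _ _ _ => triv b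
  | mk _ _ _ _ r _ => r

/-- the values in the names -/
def v : Raw B I K → I → ℕ → ℕ → K → ℕ
  | triv _ => fun _ _ _ _ => 0
  | mk _ _ _ _ _ v => v

end Raw

variable {B I K : Type}

/-- For a relation `L` on conditions (being stronger): `q` forces that the value of the name `(r, v)` is
at most `a`, that is, if some `r k` is in the generic filter then some `r k` with `v k ≤ a` is. -/
def Bd (L : Raw B I K → Raw B I K → Prop) (r : K → Raw B I K) (v : K → ℕ) (a : ℕ)
    (q : Raw B I K) : Prop :=
  ∀ q', L q' q → ∀ k, L q' (r k) → ∃ q'', L q'' q' ∧ ∃ k', L q'' (r k') ∧ v k' ≤ a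

/-- The order at the coordinate `i`, for the order `L` on the conditions below `i`. -/
def Step (L : Raw B I K → Raw B I K → Prop) (i : I) (q p : Raw B I K) : Prop :=
  i ∈ p.dom → i ∈ q.dom ∧ p.σ i <+: q.σ i ∧
    (∀ j < p.m i, ∃ j' < q.m i, q.r i j' = p.r i j ∧ q.v i j' = p.v i j) ∧
    ∀ j < p.m i, ∀ n a, (p.σ i).length ≤ n → (q.σ i)[n]? = some a →
      Bd L (p.r i j n) (p.v i j n) a q

variable [Preorder B] [PartialOrder I] [WellFoundedLT I]

/-- `q` is stronger than `p` on the coordinates below `i`. -/
noncomputable def Below (i : I) : Raw B I K → Raw B I K → Prop :=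
  WellFounded.fix (wellFounded_lt (α := I))
    (fun i F q p => q.b ≤ p.b ∧ ∀ s (hs : s < i), Step (F s hs) s q p) i

theorem below_iff {i : I} {q p : Raw B I K} :
    Below i q p ↔ q.b ≤ p.b ∧ ∀ s < i, Step (Below s) s q p := by
  unfold Below
  rw [WellFounded.fix_eq]

/-- `q` is stronger than `p` on the coordinates in `A`. -/
def LeOn (A : Set I) (q p : Raw B I K) : Prop := q.b ≤ p.b ∧ ∀ s ∈ A, Step (Below s) s q p

theorem below_eq {i : I} : (Below i : Raw B I K → Raw B I K → Prop) = LeOn (Set.Iio i) := by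
  funext q p
  exact propext below_iff

/-- Downward closed sets of coordinates. -/
def Down (A : Set I) : Prop := ∀ s ∈ A, ∀ t < s, t ∈ A

theorem down_univ : Down (Set.univ : Set I) := fun _ _ _ _ => trivial

theorem down_Iio (i : I) : Down (Set.Iio i) := fun _ hs _ ht => lt_trans ht hs

theorem down_Iic (i : I) : Down (Set.Iic i) := fun _ hs _ ht => (lt_of_lt_of_le ht hs).le

theorem LeOn.mono_set {A A' : Set I} (h : A' ⊆ A) {q p : Raw B I K} (hq : LeOn A q p) :
    LeOn A' q p := ⟨hq.1, fun s hs => hq.2 s (h hs)⟩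

theorem Step.of_eq {L : Raw B I K → Raw B I K → Prop} {i : I} {q p : Raw B I K}
    (h1 : i ∈ p.dom → i ∈ q.dom) (h2 : q.σ i = p.σ i)
    (h3 : ∀ j < p.m i, ∃ j' < q.m i, q.r i j' = p.r i j ∧ q.v i j' = p.v i j) : Step L i q p := by
  intro hi
  refine ⟨h1 hi, by rw [h2], h3, fun j _ n a hn ha => ?_⟩
  rw [h2, List.getElem?_eq_none hn] at ha
  exact absurd ha (by simp)

theorem LeOn.refl (A : Set I) (p : Raw B I K) : LeOn A p p :=
  ⟨le_rfl, fun s _ => Step.of_eq id rfl fun j hj => ⟨j, hj, rfl, rfl⟩⟩

theorem Bd.mono {L : Raw B I K → Raw B I K → Prop} (htr : ∀ a b c, L a b → L b c → L a c)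
    {r : K → Raw B I K} {v : K → ℕ} {a : ℕ} {q q' : Raw B I K} (hq : L q' q) (h : Bd L r v a q) :
    Bd L r v a q' := fun q'' hq'' k hk => h q'' (htr _ _ _ hq'' hq) k hk

theorem Bd.mono_val {L : Raw B I K → Raw B I K → Prop}
    {r : K → Raw B I K} {v : K → ℕ} {a a' : ℕ} (ha : a ≤ a') {q : Raw B I K}
    (h : Bd L r v a q) : Bd L r v a' q := fun q'' hq'' k hk => by
  obtain ⟨q₃, h1, k', h2, h3⟩ := h q'' hq'' k hk
  exact ⟨q₃, h1, k', h2, h3.trans ha⟩

/-- transitivity of the step, given transitivity below -/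
theorem Step.trans {i : I} (htr : ∀ a b c : Raw B I K, Below i a b → Below i b c → Below i a c)
    {p q q' : Raw B I K} (hb : Below i q' q) (h' : Step (Below i) i q' q)
    (h : Step (Below i) i q p) : Step (Below i) i q' p := by
  intro hi
  obtain ⟨h1, h2, h3, h4⟩ := h hi
  obtain ⟨h1', h2', h3', h4'⟩ := h' h1
  refine ⟨h1', h2.trans h2', fun j hj => ?_, fun j hj n a hn ha => ?_⟩
  · obtain ⟨j', hj', e1, e2⟩ := h3 j hj
    obtain ⟨j'', hj'', e1', e2'⟩ := h3' j' hj'
    exact ⟨j'', hj'', e1'.trans e1, e2'.trans e2⟩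
  · by_cases hn' : n < (q.σ i).length
    · have ha' : (q.σ i)[n]? = some a := by
        rw [← ha]
        exact ((List.prefix_iff_getElem?.1 h2' n hn').trans (List.getElem?_eq_getElem hn').symm).symm
      exact (h4 j hj n a hn ha').mono htr hb
    · obtain ⟨j', hj', e1, e2⟩ := h3 j hj
      have := h4' j' hj' n a (not_lt.1 hn') ha
      rwa [e1, e2] at this

theorem below_trans (i : I) : ∀ a b c : Raw B I K, Below i a b → Below i b c → Below i a c := by
  induction i using WellFoundedLT.induction with
  | ind i ih =>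
    intro a b c hab hbc
    rw [below_eq] at hab hbc ⊢
    refine ⟨hab.1.trans hbc.1, fun s hs => Step.trans (ih s hs) ?_ (hab.2 s hs) (hbc.2 s hs)⟩
    rw [below_eq]
    exact hab.mono_set fun t (ht : t < s) => lt_trans ht hs

theorem LeOn.trans {A : Set I} (hA : Down A) {a b c : Raw B I K} (hab : LeOn A a b)
    (hbc : LeOn A b c) : LeOn A a c := by
  refine ⟨hab.1.trans hbc.1, fun s hs => Step.trans (below_trans s) ?_ (hab.2 s hs) (hbc.2 s hs)⟩
  rw [below_eq]
  exact hab.mono_set fun t (ht : t < s) => hA s hs t ht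

/-- Stronger conditions are smaller. -/
instance : Preorder (Raw B I K) where
  le q p := LeOn Set.univ q p
  le_refl p := LeOn.refl _ p
  le_trans _ _ _ h h' := LeOn.trans down_univ h h'

theorem le_iff {q p : Raw B I K} : q ≤ p ↔ q.b ≤ p.b ∧ ∀ s, Step (Below s) s q p :=
  ⟨fun h => ⟨h.1, fun s => h.2 s trivial⟩, fun h => ⟨h.1, fun s _ => h.2 s⟩⟩

theorem LeOn.of_le {A : Set I} {q p : Raw B I K} (h : q ≤ p) : LeOn A q p :=
  LeOn.mono_set (Set.subset_univ A) h

theorem bd_mono {i : I} {r : K → Raw B I K} {v : K → ℕ} {a : ℕ} {q q' : Raw B I K}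
    (hq : LeOn (Set.Iio i) q' q) (h : Bd (Below i) r v a q) : Bd (Below i) r v a q' :=
  h.mono (below_trans i) (by rw [below_eq]; exact hq)

end Pool.Agent.HF
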