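import Pool.Agent.Lib.MP_a8a7e3_hf.Mg.G001
import Pool.Agent.Lib.MP_a8a7e3_hf.Mg.G002
import Pool.Agent.Lib.MP_a8a7e3_lc.NoHull

set_option linter.unusedSectionVars false
set_option linter.unusedVariables false

namespace Pool.Agent.HFZ

open Set Cardinal Pool.Agent.HF Pool.Agent.MP_a8a7e3

/-- The Hechler principle separates `Π⁰₃` from `Σ⁰₂` hulls. -/
theorem hulls (h : HechlerPrinciple) :
    (∃ ψ, IsMonotoneHullOnBaire IsPi3 ψ) ∧ ¬ ∃ ψ, IsMonotoneHullOnBaire IsSigma2 ψ := by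
  obtain ⟨Ω, R, iΩ, wΩ, iR, wR, K, iK, wK, π, c, d, h⟩ := h
  have hne : ∀ i, Nonempty (K i) := fun i => by
    obtain ⟨t, _⟩ := h.cof (fun _ => false) (fun _ => 0)
    exact ⟨π i t⟩
  obtain ⟨hreg, hunc, hincr, htype⟩ := card_facts hne h.unc h.reg h.incr
  let F : R → Set C := fun t => MF (c t) (d t)
  have hmono : ∀ s t, s ≤ t → F s ⊆ F t := by
    intro s t hst
    rcases hst.lt_or_eq with h1 | h1
    · exact mf_subset (h.cap s t h1)
    · rw [h1]
  have hcof : ∀ A : Set C, IsMeagre A → ∃ t, A ⊆ F t := by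
    intro A hA
    obtain ⟨y, e, hye⟩ := mf_cofinal hA
    obtain ⟨t, ht⟩ := h.cof y e
    exact ⟨t, hye.trans (mf_subset ht)⟩
  have hsep : ∀ s t, ¬ s ≤ t → ¬ F s ⊆ F t := fun s t hst hsub =>
    compl_notMem (h.opp s t hst) (hsub (compl_mem (c s) (d s)))
  constructor
  · obtain ⟨G, hG1, hG2, hG3, hG4⟩ := family_to_real F (fun t => mf_sigma2 _ _)
      (fun t => mf_meagre _ _) hmono hcof
    exact pi3_hull G hG1 hG2 hG3 hG4 (coinitial h.seg h.anti)
  · have hrank : ∀ i, ∃ r' : Set ℝ → Ordinal.{0}, IsRank (#(K i)) r' ∧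
        ∀ α < (#(K i)).ord, ∃ A, IsMeagre A ∧ α < r' A := by
      intro i
      obtain ⟨r, hr, hu⟩ := exists_rank (htype i) (π i) (h.mono i) (h.unb i) (h.dir i) F
        (fun t => mf_meagre _ _) hmono hcof hsep
      exact rank_to_real hr hu
    choose r hr hu using hrank
    exact no_hull_real (fun i => #(K i)) hreg hunc hincr r hr hu

end Pool.Agent.HFZ
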